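import Mathlib
import Pool.Prelude.Def_F_1001536c
import Pool.Agent.helper38.EGT6

set_option autoImplicit false

namespace Pool.Agent.Results.MP_0b8466_co.PolylogLowerBound

/-- For every real `c < 1` there is `a > 0` such that for all large `n` some graph on `n` vertices
has all its maximal cliques of size at least `c n` and clique transversal number at least
`a n / (log n) ^ 5`. -/
theorem result :
    ∀ c : ℝ, c < 1 → ∃ a : ℝ, 0 < a ∧ ∀ᶠ n : ℕ in Filter.atTop,
      ∃ G : SimpleGraph (Fin n), Ndcfe74d8.AllMaximalCliquesAtLeast G (c * (n : ℝ)) ∧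
        a * (n : ℝ) / (Real.log n) ^ 5 ≤ (G.cliqueTransversalNumber : ℝ) :=
  fun c hc => Pool.Agent.helper38.EGT.main c hc

end Pool.Agent.Results.MP_0b8466_co.PolylogLowerBound
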